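import Pool.Agent.N237.MD.CBStm

/-!
# Project CB (helper237), step CB/2: correlations with a summable kernel
-/

set_option autoImplicit false

open Finset Filter Topology

namespace Pool.Agent.N424.CB

lemma shift_one (h : ℤ → ℝ) (N : ℕ) :
    ∑ n ∈ Icc 1 N, (h ((n : ℤ) + 1) - h (n : ℤ)) = h ((N : ℤ) + 1) - h 1 := by
  induction N with
  | zero => simp
  | succ N ih =>
    rw [Finset.sum_Icc_succ_top (by omega), ih]
    push_cast
    ring

lemma shift_bound (g : ℤ → ℝ) (hg : ∀ n, |g n| ≤ 1) (N j : ℕ) :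
    |∑ n ∈ Icc 1 N, (g ((n : ℤ) + j) - g (n : ℤ))| ≤ 2 * j := by
  induction j with
  | zero => simp
  | succ j ih =>
    have h1 : ∑ n ∈ Icc 1 N, (g ((n : ℤ) + ((j + 1 : ℕ) : ℤ)) - g (n : ℤ)) =
        (∑ n ∈ Icc 1 N, (g ((n : ℤ) + 1 + j) - g ((n : ℤ) + j))) +
          ∑ n ∈ Icc 1 N, (g ((n : ℤ) + j) - g (n : ℤ)) := by
      rw [← Finset.sum_add_distrib]
      refine Finset.sum_congr rfl fun n _ => ?_
      rw [show (n : ℤ) + ((j + 1 : ℕ) : ℤ) = (n : ℤ) + 1 + j by push_cast; ring]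
      ring
    rw [h1, shift_one (fun n => g (n + j)) N]
    have h2 := hg ((N : ℤ) + 1 + j)
    have h3 := hg (1 + j)
    have h4 := abs_add_le (g ((N : ℤ) + 1 + j) - g (1 + j))
      (∑ n ∈ Icc 1 N, (g ((n : ℤ) + j) - g (n : ℤ)))
    have h5 := abs_sub (g ((N : ℤ) + 1 + j)) (g (1 + j))
    push_cast
    linarith

theorem corr : Pool.Agent.N237.MD.S_CORR := by
  classical
  intro f E hf hf0 hcor hsq W hW hW0 hW00
  -- a finite set carrying most of the mass
  obtain ⟨F₀, hF₀⟩ : ∃ F₀ : Finset ℤ, ∀ F : Finset ℤ, F₀ ⊆ F → |∑ k ∈ F, W k - ∑' k, W k| < W 0 / 32 := by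
    have h1 := hW.hasSum
    have h2 : ∀ᶠ F : Finset ℤ in atTop, |∑ k ∈ F, W k - ∑' k, W k| < W 0 / 32 := by
      have := Metric.tendsto_nhds.1 (show Tendsto (fun F : Finset ℤ => ∑ k ∈ F, W k) atTop
        (𝓝 (∑' k, W k)) from h1) (W 0 / 32) (by positivity)
      filter_upwards [this] with F hF
      rwa [Real.dist_eq] at hF
    obtain ⟨F₀, h3⟩ := eventually_atTop.1 h2
    exact ⟨F₀, fun F hF => h3 F hF⟩
  set F : Finset ℤ := insert 0 F₀ with hF
  have hFm := hF₀ F (Finset.subset_insert _ _)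
  have h0F : (0 : ℤ) ∈ F := Finset.mem_insert_self _ _
  set M : ℝ := ∑' k, W k with hM
  have hM0 : 0 ≤ M := tsum_nonneg hW0
  have hWM : ∀ k, W k ≤ M := fun k => hW.le_tsum k fun j _ => hW0 j
  set δ : ℝ := W 0 / (32 * (F.card + 1) * (M + 1)) with hδ
  have hδ0 : 0 < δ := by positivity
  -- uniform threshold
  have hthr : ∀ k : ℤ, ∃ N₀ : ℕ, ∀ N : ℕ, N₀ ≤ N → N ∉ E → k ≠ 0 →
      |∑ n ∈ Icc 1 N, f (n : ℤ) * f ((n : ℤ) - k)| ≤ δ * N := by
    intro k
    by_cases hk : k = 0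
    · exact ⟨0, fun _ _ _ h => absurd hk h⟩
    rcases lt_or_gt_of_ne hk with hneg | hpos
    · obtain ⟨N₀, hN₀⟩ := hcor (-k).toNat (by omega) δ hδ0
      refine ⟨N₀, fun N hN hNE _ => ?_⟩
      have h1 := hN₀ N hN hNE
      have h2 : (((-k).toNat : ℕ) : ℤ) = -k := by omega
      simpa only [h2, ← sub_eq_add_neg] using h1
    · obtain ⟨N₀, hN₀⟩ := hcor k.toNat (by omega) (δ / 2) (by positivity)
      obtain ⟨N₁, hN₁⟩ := exists_nat_ge (2 * (k.toNat : ℝ) / (δ / 2))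
      refine ⟨max N₀ N₁, fun N hN hNE _ => ?_⟩
      have h1 := hN₀ N (le_trans (le_max_left _ _) hN) hNE
      have h2 : ((k.toNat : ℕ) : ℤ) = k := by omega
      have h3 := shift_bound (fun n => f n * f (n - k)) (fun n => by
        rw [abs_mul]
        exact mul_le_one₀ (hf n) (abs_nonneg _) (hf _)) N k.toNat
      simp only [h2] at h1 h3
      have h4 : ∑ n ∈ Icc 1 N, f (n : ℤ) * f ((n : ℤ) - k) =
          (∑ n ∈ Icc 1 N, f (n : ℤ) * f ((n : ℤ) + k)) -
          ∑ n ∈ Icc 1 N, (f ((n : ℤ) + k) * f ((n : ℤ) + k - k) - f (n : ℤ) * f ((n : ℤ) - k)) := by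
        rw [← Finset.sum_sub_distrib]
        refine Finset.sum_congr rfl fun n _ => ?_
        rw [add_sub_cancel_right]
        ring
      have h5 : 2 * (k.toNat : ℝ) ≤ δ / 2 * N := by
        have h6 : (N₁ : ℝ) ≤ N := by exact_mod_cast le_trans (le_max_right _ _) hN
        have h7 : 2 * (k.toNat : ℝ) / (δ / 2) ≤ N := hN₁.trans h6
        rw [div_le_iff₀ (by positivity)] at h7
        linarith
      rw [h4]
      have h8 := abs_sub (∑ n ∈ Icc 1 N, f (n : ℤ) * f ((n : ℤ) + k))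
        (∑ n ∈ Icc 1 N, (f ((n : ℤ) + k) * f ((n : ℤ) + k - k) - f (n : ℤ) * f ((n : ℤ) - k)))
      linarith
  choose Nk hNk using hthr
  obtain ⟨N₂, hN₂⟩ := hsq
  refine ⟨max N₂ (F.sup Nk), fun N hN hNE => ?_⟩
  have hNk' : ∀ k ∈ F, k ≠ 0 → |∑ n ∈ Icc 1 N, f (n : ℤ) * f ((n : ℤ) - k)| ≤ δ * N :=
    fun k hk hk0 => hNk k N (le_trans (Finset.le_sup hk) (le_trans (le_max_right _ _) hN)) hNE hk0
  have hS0 := hN₂ N (le_trans (le_max_left _ _) hN)
  -- the inner sums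
  have hinner : ∀ n : ℤ, |∑' m : ℤ, f n * f m * W (n - m) - ∑ k ∈ F, f n * f (n - k) * W k| ≤
      W 0 / 32 := by
    intro n
    have hre : ∑' m : ℤ, f n * f m * W (n - m) = ∑' k : ℤ, f n * f (n - k) * W k := by
      rw [← (Equiv.subLeft n).tsum_eq (fun m => f n * f m * W (n - m))]
      refine tsum_congr fun k => ?_
      simp only [Equiv.subLeft_apply, sub_sub_cancel]
    have hb : ∀ k, ‖f n * f (n - k) * W k‖ ≤ W k := by
      intro k
      rw [Real.norm_eq_abs, abs_mul, abs_mul, abs_of_nonneg (hW0 k)]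
      have h1 := hf n
      have h2 := hf (n - k)
      have h3 : |f n| * |f (n - k)| ≤ 1 := mul_le_one₀ h1 (abs_nonneg _) h2
      calc |f n| * |f (n - k)| * W k ≤ 1 * W k := mul_le_mul_of_nonneg_right h3 (hW0 k)
        _ = W k := one_mul _
    have hs : Summable fun k => f n * f (n - k) * W k := Summable.of_norm_bounded hW hb
    rw [hre, ← hs.sum_add_tsum_subtype_compl F, add_sub_cancel_left]
    have h1 : Summable fun k : {k // k ∉ F} => W k := hW.subtype _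
    have h2 : ‖∑' k : {k // k ∉ F}, f n * f (n - k) * W k‖ ≤ ∑' k : {k // k ∉ F}, W k :=
      tsum_of_norm_bounded h1.hasSum fun k => hb k
    rw [← Real.norm_eq_abs]
    refine h2.trans ?_
    have h3 := hW.sum_add_tsum_subtype_compl F
    have h4 := abs_lt.1 hFm
    have h5 : ∑ k ∈ F, W k + ∑' k : {k // k ∉ F}, W k = M := h3
    linarith [h4.1]
  -- sum over n
  have hdiff : |∑ n ∈ Icc 1 N, ∑' m : ℤ, f (n : ℤ) * f m * W ((n : ℤ) - m) -
      ∑ n ∈ Icc 1 N, ∑ k ∈ F, f (n : ℤ) * f ((n : ℤ) - k) * W k| ≤ N * (W 0 / 32) := by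
    rw [← Finset.sum_sub_distrib]
    refine (Finset.abs_sum_le_sum_abs _ _).trans ?_
    refine (Finset.sum_le_card_nsmul (Icc 1 N) _ (W 0 / 32) fun (n : ℕ) _ =>
      hinner (n : ℤ)).trans ?_
    rw [nsmul_eq_mul, Nat.card_Icc, Nat.add_sub_cancel]
  have hswap : ∑ n ∈ Icc 1 N, ∑ k ∈ F, f (n : ℤ) * f ((n : ℤ) - k) * W k =
      ∑ k ∈ F, W k * ∑ n ∈ Icc 1 N, f (n : ℤ) * f ((n : ℤ) - k) := by
    rw [Finset.sum_comm]
    refine Finset.sum_congr rfl fun k _ => ?_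
    rw [Finset.mul_sum]
    refine Finset.sum_congr rfl fun n _ => by ring
  have hmain : W 0 * (N / 4) - W 0 / 32 * N ≤
      ∑ k ∈ F, W k * ∑ n ∈ Icc 1 N, f (n : ℤ) * f ((n : ℤ) - k) := by
    rw [← Finset.add_sum_erase _ _ h0F]
    have h1 : W 0 * (N / 4) ≤ W 0 * ∑ n ∈ Icc 1 N, f (n : ℤ) * f ((n : ℤ) - 0) := by
      refine mul_le_mul_of_nonneg_left ?_ hW00.le
      refine hS0.trans (le_of_eq ?_)
      refine Finset.sum_congr rfl fun n _ => ?_
      rw [sub_zero, sq]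
    have h2 : |∑ k ∈ F.erase 0, W k * ∑ n ∈ Icc 1 N, f (n : ℤ) * f ((n : ℤ) - k)| ≤
        W 0 / 32 * N := by
      refine (Finset.abs_sum_le_sum_abs _ _).trans ?_
      have h3 : ∀ k ∈ F.erase 0, |W k * ∑ n ∈ Icc 1 N, f (n : ℤ) * f ((n : ℤ) - k)| ≤
          (M + 1) * (δ * N) := by
        intro k hk
        rw [abs_mul, abs_of_nonneg (hW0 k)]
        have h4 := hNk' k (Finset.mem_of_mem_erase hk) (Finset.ne_of_mem_erase hk)
        exact mul_le_mul (by linarith [hWM k]) h4 (abs_nonneg _) (by linarith)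
      refine (Finset.sum_le_card_nsmul _ _ _ h3).trans ?_
      rw [nsmul_eq_mul]
      have h5 : ((F.erase 0).card : ℝ) ≤ F.card + 1 := by
        have : (F.erase 0).card ≤ F.card := Finset.card_erase_le
        have : ((F.erase 0).card : ℝ) ≤ F.card := by exact_mod_cast this
        linarith
      have h6 : ((F.card : ℝ) + 1) * ((M + 1) * (δ * N)) = W 0 / 32 * N := by
        rw [hδ]
        field_simp
      rw [← h6]
      exact mul_le_mul_of_nonneg_right h5 (by positivity)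
    have h7 := (abs_le.1 h2).1
    linarith
  rw [hswap] at hdiff
  have h8 := (abs_le.1 hdiff).1
  have h9 : (0 : ℝ) ≤ W 0 * N := by positivity
  linarith

end Pool.Agent.N424.CB
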